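import Pool.Agent.H74.G.R_pool_sql_team_seeded_2aa45f1a.Q154.OS.Basic
import Pool.Agent.H74.G.R_seed8.W564.SC.Lib

/-!
# A local form of the closing criterion
-/

set_option autoImplicit false
set_option linter.unusedSectionVars false

open scoped Manifold ContDiff Topology
open Filter Set Metric

universe u

namespace Pool.Agent.Q154.OS

open Pool.Agent.H718R2.G Pool.Agent.TH80.OMS Pool.Agent.Y504.CO Pool.Agent.W564.SC

/-- `F` can be closed up near `z` by local perturbations: every neighbourhood of `F` contains some `G`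
with a periodic point close to `z` which differs from `F` only at the points mapped by `F` into a given
neighbourhood of `z`. -/
def LocClosable (n : ℕ) (N : Type*) [TopologicalSpace N] [ChartedSpace (V n) N] (r : ℕ∞)
    (F : DiffM n N r) (z : N) : Prop :=
  ∀ U : Set (DiffM n N r), IsOpen[strongTop n N r] U → F ∈ U → ∀ O : Set N, IsOpen O → z ∈ O →
    ∃ G ∈ U, ∃ z' ∈ O, IsPer G z' ∧ ∀ y, F y ∉ O → G y = F y

variable {n : ℕ} {N : Type u} [TopologicalSpace N] [T2Space N] [CompactSpace N]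
  [ChartedSpace (V n) N] [IsManifold (𝓡 n) ∞ N]

theorem locClosable_of_per {r : ℕ∞} {F : DiffM n N r} {z : N} (hz : IsPer F z) :
    LocClosable n N r F z :=
  fun _ _ hFU _ _ hzO => ⟨F, hFU, z, hzO, hz, fun _ _ => rfl⟩

/-- The local closing criterion. -/
theorem loc_cl {r : ℕ∞} (hr : 1 ≤ r) (F : DiffM n N r) (χ : OpenPartialHomeomorph N (V n)) (z : N)
    (hχ : GoodChart n N χ z) (U : Set (DiffM n N r)) (hU : IsOpen[strongTop n N r] U) (hFU : F ∈ U)
    (O : Set N) (hO : IsOpen O) (hzO : z ∈ O) :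
    ∃ k : ℕ, (k : ℕ∞) ≤ r ∧ ∃ κ : ℝ, 0 < κ ∧
      ∀ (z' : N) (ρ : ℝ) (m : ℕ), z' ∈ χ.source → ‖χ z'‖ < κ → 0 < ρ →
        ρ < κ → 1 ≤ m →
        F^[m] z' ∈ χ.source → ‖χ (F^[m] z') - χ z'‖ < κ * ρ ^ k →
        (∀ i, 0 < i → i < m → F^[i] z' ∈ χ.source →
          2 * ρ ≤ ‖χ (F^[i] z') - χ z'‖) →
        ∃ G ∈ U, ∃ z' ∈ O, IsPer G z' ∧ ∀ y, F y ∉ O → G y = F y := by
  have hfam : IsFam n N r (fun _ : ℝ => F) := by
    intro y
    exact ContMDiffAt.comp ((0 : ℝ), y) (F.contMDiff.contMDiffAt (x := y)) contMDiffAt_snd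
  obtain ⟨k, hk1, hkr, κ₀, hκ₀, hN⟩ := t_NBHD n N r hr ℝ (fun _ => F) hfam χ z hχ U hU hFU
  obtain ⟨C, hC, hB⟩ := Pool.Agent.W271.SC.bump n k hk1
  -- a ball of the chart contained in `O`
  obtain ⟨δ, hδ, hδO⟩ : ∃ δ : ℝ, 0 < δ ∧ ∀ y ∈ χ.source, ‖χ y‖ < δ → y ∈ O := by
    have h1 : χ.symm ⁻¹' O ∈ 𝓝 (0 : V n) := by
      have h2 : ContinuousAt χ.symm (χ z) := χ.continuousAt_symm (χ.map_source hχ.src)
      rw [hχ.zero] at h2
      apply h2.preimage_mem_nhds
      have h3 : χ.symm 0 = z := by rw [← hχ.zero, χ.left_inv hχ.src]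
      rw [h3]
      exact hO.mem_nhds hzO
    obtain ⟨δ, hδ, h⟩ := Metric.mem_nhds_iff.1 h1
    refine ⟨δ, hδ, fun y hy hyδ => ?_⟩
    have h4 : χ.symm (χ y) ∈ O := h (by rw [mem_ball_zero_iff]; exact hyδ)
    rwa [χ.left_inv hy] at h4
  refine ⟨k, hkr, min (min (min κ₀ (1 / 8)) (δ / 4)) (min (κ₀ / C) (1 / (2 * C))), by positivity, ?_⟩
  intro z' ρ m hz' hz'κ hρ hρκ hm hsrc hw hi
  obtain ⟨κ, hκ⟩ : ∃ κ, κ = min (min (min κ₀ (1 / 8)) (δ / 4)) (min (κ₀ / C) (1 / (2 * C))) := ⟨_, rfl⟩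
  rw [← hκ] at hz'κ hρκ hw
  have k0 : κ ≤ δ / 4 := by rw [hκ]; exact (min_le_left _ _).trans (min_le_right _ _)
  have k1 : κ ≤ κ₀ := by
    rw [hκ]; exact (min_le_left _ _).trans ((min_le_left _ _).trans (min_le_left _ _))
  have k2 : κ ≤ 1 / 8 := by
    rw [hκ]; exact (min_le_left _ _).trans ((min_le_left _ _).trans (min_le_right _ _))
  have k3 : κ ≤ κ₀ / C := by rw [hκ]; exact (min_le_right _ _).trans (min_le_left _ _)
  have k4 : κ ≤ 1 / (2 * C) := by rw [hκ]; exact (min_le_right _ _).trans (min_le_right _ _)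
  have hρk : 0 < ρ ^ k := pow_pos hρ k
  have hρ1 : ρ ≤ 1 := by linarith
  have hρk' : ρ ^ k ≤ ρ := by
    calc ρ ^ k ≤ ρ ^ 1 := pow_le_pow_of_le_one hρ.le hρ1 hk1
      _ = ρ := pow_one ρ
  have hwρ : ‖χ (F^[m] z') - χ z'‖ ≤ ρ := by
    refine hw.le.trans ?_
    calc κ * ρ ^ k ≤ 1 * ρ ^ k := by gcongr; linarith
      _ = ρ ^ k := one_mul _
      _ ≤ ρ := hρk'
  obtain ⟨u, hu, huw, hu0⟩ := hB ρ hρ (by linarith) _ hwρ
  have hq : ‖χ (F^[m] z') - χ z'‖ / ρ ^ k ≤ κ := by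
    rw [div_le_iff₀ hρk]; exact hw.le
  have hc1 : C * (‖χ (F^[m] z') - χ z'‖ / ρ ^ k) ≤ κ₀ := by
    calc C * (‖χ (F^[m] z') - χ z'‖ / ρ ^ k) ≤ C * (κ₀ / C) :=
          mul_le_mul_of_nonneg_left (hq.trans k3) hC.le
      _ = κ₀ := by field_simp
  have hc2 : C * (‖χ (F^[m] z') - χ z'‖ / ρ ^ k) ≤ 1 / 2 := by
    calc C * (‖χ (F^[m] z') - χ z'‖ / ρ ^ k) ≤ C * (1 / (2 * C)) :=
          mul_le_mul_of_nonneg_left (hq.trans k4) hC.le
      _ = 1 / 2 := by field_simp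
  -- the translated push
  have hv0 : ∀ x, 2 * ρ ≤ ‖x - χ z'‖ → u (x - χ z') = 0 := fun x hx => hu0 _ hx
  have hv : ∀ {k' : ℕ} {κ' : ℝ}, Small n k' κ' u → Small n k' κ' (fun x => u (x - χ z')) := by
    intro k' κ' h
    refine ⟨h.smooth.comp (contDiff_id.sub contDiff_const), fun x hx => ?_, fun j hj x => ?_⟩
    · apply hv0
      have h1 := norm_sub_norm_le x (χ z')
      linarith
    · have h1 : iteratedFDeriv ℝ j (fun x => u (x - χ z')) x = iteratedFDeriv ℝ j u (x - χ z') := by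
        rw [iteratedFDeriv_comp_sub]
      rw [h1]
      exact h.bd j hj _
  obtain ⟨Θ, hΘ⟩ := Pool.Agent.W428.SC.push n N r χ z hχ (fun x => u (x - χ z'))
    (hv (Pool.Agent.W74.SC.small_mono hu hk1 hc2))
  have hGU := hN 0 (fun x => u (x - χ z')) Θ (by simpa using hκ₀)
    (hv (Pool.Agent.W74.SC.small_mono hu le_rfl hc1)) hΘ
  have hG : ∀ y, (F.trans Θ) y = Θ (F y) := fun y => rfl
  have hsmallO : ∀ y ∈ χ.source, ‖χ y - χ z'‖ < 2 * ρ → y ∈ O := by
    intro y hy h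
    apply hδO y hy
    have h1 : ‖χ y‖ ≤ ‖χ y - χ z'‖ + ‖χ z'‖ := by
      calc ‖χ y‖ = ‖(χ y - χ z') + χ z'‖ := by rw [sub_add_cancel]
        _ ≤ _ := norm_add_le _ _
    linarith
  refine ⟨F.trans Θ, hGU, z', hδO z' hz' (by linarith), ⟨m, hm, ?_⟩, ?_⟩
  · have key : ∀ i, i < m → (⇑(F.trans Θ))^[i] z' = F^[i] z' := by
      intro i
      induction i with
      | zero => intro _; rfl
      | succ i ih =>
        intro him
        rw [Function.iterate_succ_apply', ih (by omega), hG, ← Function.iterate_succ_apply' F]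
        by_cases hy : F^[i + 1] z' ∈ χ.source
        · obtain ⟨a, b⟩ := hΘ.1 _ hy
          beta_reduce at b
          rw [hv0 _ (hi (i + 1) (Nat.succ_pos i) him hy), add_zero] at b
          exact χ.injOn a hy b
        · exact hΘ.2 _ hy
    obtain ⟨m', rfl⟩ : ∃ m', m = m' + 1 := ⟨m - 1, by omega⟩
    rw [Function.iterate_succ_apply', key m' (by omega), hG, ← Function.iterate_succ_apply' F]
    obtain ⟨a, b⟩ := hΘ.1 _ hsrc
    beta_reduce at b
    rw [huw] at b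
    refine χ.injOn a hz' (b.trans ?_)
    abel
  · intro y hy
    rw [hG]
    by_cases hys : F y ∈ χ.source
    · obtain ⟨a, b⟩ := hΘ.1 _ hys
      beta_reduce at b
      have h1 : 2 * ρ ≤ ‖χ (F y) - χ z'‖ := by
        by_contra h
        exact hy (hsmallO _ hys (not_le.1 h))
      rw [hv0 _ h1, add_zero] at b
      exact χ.injOn a hys b
    · exact hΘ.2 _ hys

/-- Counting periodic points: if an `Ω`-stable diffeomorphism can be closed up near `z` by local
perturbations, then `z` is a limit of periodic points. -/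
theorem mem_closure_per {r : ℕ∞} (hr : 1 ≤ r) {F : DiffM n N r} (hF : OmegaStable n N r F) {z : N}
    (hz : LocClosable n N r F z) : z ∈ closure (Per F) := by
  by_contra hcon
  obtain ⟨U₁, hU₁, hFU₁, hfin⟩ := finite_per hr hF
  obtain ⟨U₀, hU₀, hFU₀, hconj⟩ := hF
  obtain ⟨G, ⟨hG₀, hG₁⟩, z', hz', ⟨m, hm, hmz⟩, hGF⟩ := hz (U₀ ∩ U₁)
    (@IsOpen.inter _ (strongTop n N r) _ _ hU₀ hU₁) ⟨hFU₀, hFU₁⟩ (closure (Per F))ᶜ
    isClosed_closure.isOpen_compl hcon
  have hPer : ∀ p, F^[m] p = p → ∀ i, F^[i] p ∈ Per F := by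
    intro p hp i
    refine ⟨m, hm, ?_⟩
    rw [← Function.iterate_add_apply, add_comm, Function.iterate_add_apply, hp]
  have hsub : {x | F^[m] x = x} ⊆ {x | G^[m] x = x} := by
    intro p hp
    have h1 : ∀ i, G^[i] p = F^[i] p := by
      intro i
      induction i with
      | zero => rfl
      | succ i ih =>
        rw [Function.iterate_succ_apply', ih, Function.iterate_succ_apply' F]
        apply hGF
        intro h2
        apply h2
        rw [← Function.iterate_succ_apply' F]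
        exact subset_closure (hPer p hp (i + 1))
    show G^[m] p = p
    rw [h1]
    exact hp
  have hne : z' ∉ {x | F^[m] x = x} := fun h => hz' (subset_closure ⟨m, hm, h⟩)
  have hlt : {x | F^[m] x = x}.ncard < {x | G^[m] x = x}.ncard :=
    Set.ncard_lt_ncard ⟨hsub, fun h => hne (h hmz)⟩ (hfin G hG₁ m hm)
  have heq := ncard_conj F.continuous G.continuous (hconj G hG₀) hm
  omega

end Pool.Agent.Q154.OS
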