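import Pool.Agent.H74.G.R_pool_sql_team_seeded_2aa45f1a.Q154.OS.Loc
import Pool.Agent.H74.G.R_seed8.W216.SC.A
import Pool.Agent.H74.G.R_seed8.W816.SC.Flex
import Pool.Agent.H74.G.R_seed8.W366.SC.EX1
import Pool.Agent.H74.G.R_seed8.W806.SC.EX2

/-!
# Local closing for products with a mixing map with periodic shadowing

The proof is the one of `Pool/Agent/W216/SC/A.lean`, with the local closing criterion.
-/

set_option autoImplicit false
set_option linter.unusedSectionVars false

open scoped Manifold ContDiff Topology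
open Filter Set Metric

universe u v w

namespace Pool.Agent.Q154.OS

open Pool.Agent.H718R2.G Pool.Agent.W564.SC Pool.Agent.W216.SC

theorem loc_mix {n : ℕ} {N : Type u} [TopologicalSpace N] [T2Space N] [CompactSpace N]
    [ChartedSpace (V n) N] [IsManifold (𝓡 n) ∞ N] {r : ℕ∞} (hr : 1 ≤ r) (F : DiffM n N r)
    {X : Type v} {Y : Type w} [MetricSpace X] [CompactSpace X] [MetricSpace Y] [CompactSpace Y]
    [Nontrivial Y] (f : X ≃ₜ X) (g : Y ≃ₜ Y) (hps : PerShadow g) (hcm : ChainMix g)
    (Θ : X × Y → N) (hΘ : Topology.IsEmbedding Θ) (hF : ∀ x y, F (Θ (x, y)) = Θ (f x, g y))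
    (x : X) (y : Y) (hx : NonWand f x) : LocClosable n N r F (Θ (x, y)) := by
  intro U hU hFU O hO hzO
  obtain ⟨χ, hχ⟩ := Pool.Agent.W699.SC.gc n N (Θ (x, y))
  obtain ⟨k, hk, κ, hκ, hcl⟩ := loc_cl hr F χ (Θ (x, y)) hχ U hU hFU O hO hzO
  obtain ⟨η, hη, hball⟩ := good_ball hΘ hχ rfl (lt_min hκ (half_pos one_pos) :
    (0 : ℝ) < min κ (1 / 2))
  obtain ⟨ρ0, R, hρ0, hflex⟩ := Pool.Agent.W816.SC.flex Y g hps hcm y η hη
  have hmem : ∀ (x' : X) (y' : Y), dist x' x ≤ η → dist y' y ≤ η → Θ (x', y') ∈ χ.source ∧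
      ‖χ (Θ (x', y'))‖ < min κ (1 / 2) := by
    intro x' y' h1 h2
    apply hball
    rw [Prod.dist_eq]
    exact max_le h1 h2
  by_cases hper : ∃ b : ℕ, 1 ≤ b ∧ f^[b] x = x
  · -- periodic
    obtain ⟨b, hb, hbx⟩ := hper
    set m := b * (2 * R + 1) with hm
    have hm1 : 1 ≤ m := Nat.mul_pos hb (by omega)
    have hm2 : 2 * R ≤ m := by
      have : 1 * (2 * R + 1) ≤ b * (2 * R + 1) := Nat.mul_le_mul_right _ hb
      omega
    obtain ⟨y1, hy1, hy1', _⟩ := hflex m hm2
    have hxm : f^[m] x = x := by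
      have h4 : Function.IsPeriodicPt f b x := hbx
      exact h4.mul_const (2 * R + 1)
    set z1 := Θ (x, y1) with hz1
    have hz1m : F^[m] z1 = z1 := by rw [hz1, iter_Θ hF, hxm, hy1']
    obtain ⟨hs, hn⟩ := hmem x y1 (by rw [dist_self]; exact hη.le) hy1.le
    have hp : z1 ∈ Function.periodicPts F := Function.mk_mem_periodicPts (n := m) hm1 hz1m
    have hmp := Function.minimalPeriod_pos_of_mem_periodicPts hp
    set mp := Function.minimalPeriod F z1 with hmpdef
    classical
    obtain ⟨c, hc, hcm'⟩ := exists_pos_le (Finset.Ico 1 mp)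
      (fun i => if F^[i] z1 ∈ χ.source then ‖χ (F^[i] z1) - χ z1‖ else 1) (by
      intro i hi
      rw [Finset.mem_Ico] at hi
      split_ifs with hsrc
      · apply norm_pos_iff.2
        rw [sub_ne_zero]
        intro h5
        have h6 := χ.injOn hsrc hs h5
        exact Function.not_isPeriodicPt_of_pos_of_lt_minimalPeriod (by omega) hi.2 h6
      · exact one_pos)
    refine hcl z1 (min (c / 2) (κ / 2)) mp hs
      (hn.trans_le (min_le_left _ _)) (lt_min (half_pos hc) (half_pos hκ))
      ((min_le_right _ _).trans_lt (half_lt_self hκ)) hmp ?_ ?_ ?_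
    · show F^[mp] z1 ∈ χ.source
      rw [hmpdef, Function.iterate_minimalPeriod]
      exact hs
    · show ‖χ (F^[mp] z1) - χ z1‖ < _
      rw [hmpdef, Function.iterate_minimalPeriod, sub_self, norm_zero]
      have : 0 < min (c / 2) (κ / 2) := lt_min (half_pos hc) (half_pos hκ)
      positivity
    · intro i hi0 hi1 hsrc
      have h5 := hcm' i (by rw [Finset.mem_Ico]; omega)
      have hsrc' : F^[i] z1 ∈ χ.source := hsrc
      rw [if_pos hsrc'] at h5
      have h6 : min (c / 2) (κ / 2) ≤ c / 2 := min_le_left _ _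
      show 2 * min (c / 2) (κ / 2) ≤ ‖χ (F^[i] z1) - χ z1‖
      linarith
  · -- not periodic
    push Not at hper
    have hsymm : ∀ i : ℕ, 1 ≤ i → f.symm^[i] x ≠ x := by
      intro i hi h5
      apply hper i hi
      have h6 : f^[i] (f.symm^[i] x) = x := (f.toEquiv.right_inv.iterate i) x
      conv_lhs => rw [← h5]
      exact h6
    obtain ⟨c1, hc1, hc1m⟩ := exists_pos_le (Finset.Ico 1 R) (fun i => dist (f^[i] x) x) (by
      intro i hi
      rw [Finset.mem_Ico] at hi
      exact dist_pos.2 (hper i hi.1))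
    obtain ⟨c2, hc2, hc2m⟩ := exists_pos_le (Finset.Ico 1 R) (fun i => dist (f.symm^[i] x) x) (by
      intro i hi
      rw [Finset.mem_Ico] at hi
      exact dist_pos.2 (hsymm i hi.1))
    set c := min c1 c2 with hc
    have hc0 : 0 < c := lt_min hc1 hc2
    have hc4 : 0 < c / 4 := by linarith
    have hev : ∀ᶠ x' in 𝓝 x, ∀ i ∈ Finset.Ico 1 R, dist (f^[i] x') (f^[i] x) < c / 4 ∧
        dist (f.symm^[i] x') (f.symm^[i] x) < c / 4 := by
      rw [Finset.eventually_all]
      intro i _
      have h5 : ContinuousAt (f^[i]) x := (f.continuous.iterate i).continuousAt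
      have h6 : ContinuousAt (f.symm^[i]) x := (f.symm.continuous.iterate i).continuousAt
      exact (h5.eventually_mem (Metric.ball_mem_nhds _ hc4)).and
        (h6.eventually_mem (Metric.ball_mem_nhds _ hc4))
    obtain ⟨ε0, hε0, hε0'⟩ := Metric.eventually_nhds_iff.1 hev
    set d0 := min (c / 2) ρ0 with hd0
    have hd0' : 0 < d0 := lt_min (half_pos hc0) hρ0
    obtain ⟨ρ1, hρ1, hsep⟩ := sep (X := X) (Y := Y) hΘ hχ hd0'
    set ρ := min (ρ1 / 2) (κ / 2) with hρ
    have hρ' : 0 < ρ := lt_min (half_pos hρ1) (half_pos hκ)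
    have hρκ : ρ < κ := (min_le_right _ _).trans_lt (half_lt_self hκ)
    -- uniform continuity
    have hBc : IsCompact (closedBall ((x, y) : X × Y) η) :=
      Metric.isClosed_closedBall.isCompact
    have hco : ContinuousOn (fun p : X × Y => χ (Θ p)) (closedBall ((x, y) : X × Y) η) := by
      apply χ.continuousOn.comp hΘ.continuous.continuousOn
      intro p hp
      exact (hball p hp).1
    have huc := hBc.uniformContinuousOn_of_continuous hco
    rw [Metric.uniformContinuousOn_iff] at huc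
    have hκρ : 0 < κ * ρ ^ k := by positivity
    obtain ⟨δ3, hδ3, huc'⟩ := huc (κ * ρ ^ k) hκρ
    set ε := min (min η ε0) (min (c / 4) (δ3 / 2)) with hε
    have hεpos : 0 < ε := lt_min (lt_min hη hε0) (lt_min hc4 (half_pos hδ3))
    have hεη : ε ≤ η := (min_le_left _ _).trans (min_le_left _ _)
    have hεε0 : ε ≤ ε0 := (min_le_left _ _).trans (min_le_right _ _)
    have hεc : ε ≤ c / 4 := (min_le_right _ _).trans (min_le_left _ _)
    have hεδ : ε ≤ δ3 / 2 := (min_le_right _ _).trans (min_le_right _ _)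
    obtain ⟨x1, m, hmR, hm1, hx1, hx1m⟩ := nonwand_long f hx hper ε hεpos (2 * R)
    obtain ⟨y1, hy1, hy1m, hy1r⟩ := hflex m hmR
    obtain ⟨hs, hn⟩ := hmem x1 y1 (hx1.le.trans hεη) hy1.le
    obtain ⟨hs', hn'⟩ := hmem (f^[m] x1) y1 (hx1m.le.trans hεη) hy1.le
    have hit : ∀ i, F^[i] (Θ (x1, y1)) = Θ (f^[i] x1, g^[i] y1) := fun i => iter_Θ hF i x1 y1
    have hfar : ∀ i, 0 < i → i < m → d0 ≤ dist ((f^[i] x1, g^[i] y1) : X × Y) (x1, y1) := by
      intro i hi0 him
      rw [Prod.dist_eq]
      by_cases hiR : i < R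
      · refine le_trans (min_le_left _ _) (le_trans ?_ (le_max_left _ _))
        have hmemi : i ∈ Finset.Ico 1 R := by rw [Finset.mem_Ico]; omega
        have h5 := hc1m i hmemi
        have h6 := (hε0' (hx1.trans_le hεε0) i hmemi).1
        have h7 : c ≤ c1 := min_le_left _ _
        have h8 := dist_triangle4 (f^[i] x) (f^[i] x1) x1 x
        rw [dist_comm (f^[i] x) (f^[i] x1)] at h8
        show c / 2 ≤ dist (f^[i] x1) x1
        linarith
      · by_cases hiR2 : m < i + R
        · refine le_trans (min_le_left _ _) (le_trans ?_ (le_max_left _ _))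
          have hmemi : m - i ∈ Finset.Ico 1 R := by rw [Finset.mem_Ico]; omega
          have h5 := hc2m (m - i) hmemi
          have h6 := (hε0' (hx1m.trans_le hεε0) (m - i) hmemi).2
          have h7 : c ≤ c2 := min_le_right _ _
          have h9 : f.symm^[m - i] (f^[m] x1) = f^[i] x1 := by
            have h10 : m = (m - i) + i := by omega
            have h11 : f^[m] x1 = f^[m - i] (f^[i] x1) := by
              conv_lhs => rw [h10]
              exact Function.iterate_add_apply _ _ _ _
            rw [h11]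
            exact (f.toEquiv.left_inv.iterate (m - i)) _
          rw [h9] at h6
          have h8 := dist_triangle4 (f.symm^[m - i] x) (f^[i] x1) x1 x
          rw [dist_comm (f.symm^[m - i] x) (f^[i] x1)] at h8
          show c / 2 ≤ dist (f^[i] x1) x1
          linarith
        · refine le_trans (min_le_right _ _) (le_trans ?_ (le_max_right _ _))
          exact hy1r i (by omega) (by omega)
    refine hcl (Θ (x1, y1)) ρ m hs
      (hn.trans_le (min_le_left _ _)) hρ' hρκ hm1 ?_ ?_ ?_
    · show F^[m] (Θ (x1, y1)) ∈ χ.source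
      rw [hit, hy1m]
      exact hs'
    · show ‖χ (F^[m] (Θ (x1, y1))) - χ (Θ (x1, y1))‖ < _
      rw [hit, hy1m, ← dist_eq_norm]
      apply huc' (f^[m] x1, y1) _ (x1, y1)
      · rw [mem_closedBall, Prod.dist_eq]
        exact max_le (hx1.le.trans hεη) hy1.le
      · rw [Prod.dist_eq]
        simp only [dist_self]
        have h5 := dist_triangle_right (f^[m] x1) x1 x
        apply max_lt _ hδ3
        linarith
      · rw [mem_closedBall, Prod.dist_eq]
        exact max_le (hx1m.le.trans hεη) hy1.le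
    · intro i hi0 him hsrc
      have hsrc' : F^[i] (Θ (x1, y1)) ∈ χ.source := hsrc
      show 2 * ρ ≤ ‖χ (F^[i] (Θ (x1, y1))) - χ (Θ (x1, y1))‖
      rw [hit] at hsrc' ⊢
      have h5 := hsep (x1, y1) _ (hfar i hi0 him) hs (hn.trans_le (min_le_right _ _)) hsrc'
      have h6 : ρ ≤ ρ1 / 2 := min_le_left _ _
      linarith

end Pool.Agent.Q154.OS
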